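import Pool.Agent.L7h31.CE.Stm

/-!
# Project CE (helper31, MP_6d95fe_co), parts VPOLY, VTIL, DST, W
-/

set_option autoImplicit false

namespace Pool.Agent.L7h15.CE

open Pool.Agent.L7h31.CE
open scoped BigOperators Topology

theorem hs_iff {ι : Type} [Fintype ι] (z c c' : EuclideanSpace ℝ ι) :
    dist z c ≤ dist z c' ↔ 2 * inner ℝ (z - c) (c' - c) ≤ ‖c' - c‖ ^ 2 := by
  have h1 : dist z c' ^ 2 = dist z c ^ 2 - 2 * inner ℝ (z - c) (c' - c) + ‖c' - c‖ ^ 2 := by
    rw [dist_eq_norm, dist_eq_norm, ← norm_sub_sq_real]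
    congr 2
    abel
  constructor
  · intro h
    have h2 : dist z c ^ 2 ≤ dist z c' ^ 2 := by gcongr
    linarith
  · intro h
    have h2 : dist z c ^ 2 ≤ dist z c' ^ 2 := by linarith
    exact le_of_sq_le_sq h2 dist_nonneg

theorem hs_seg {ι : Type} [Fintype ι] (z c c' : EuclideanSpace ℝ ι) (t : ℝ) (ht0 : 0 ≤ t)
    (ht1 : t ≤ 1) (h : dist z c ≤ dist z c') :
    dist (c + t • (z - c)) c ≤ dist (c + t • (z - c)) c' := by
  rw [hs_iff] at h ⊢
  have e1 : c + t • (z - c) - c = t • (z - c) := by abel
  rw [e1, real_inner_smul_left]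
  have h0 : 0 ≤ ‖c' - c‖ ^ 2 := by positivity
  calc 2 * (t * inner ℝ (z - c) (c' - c)) = t * (2 * inner ℝ (z - c) (c' - c)) := by ring
    _ ≤ t * ‖c' - c‖ ^ 2 := by gcongr
    _ ≤ 1 * ‖c' - c‖ ^ 2 := by gcongr
    _ = ‖c' - c‖ ^ 2 := one_mul _

theorem s_VPOLY : S_VPOLY := by
  intro ι _ S R hfin hcov c hc
  have hR : 0 ≤ R := by
    obtain ⟨c', -, h⟩ := hcov c
    exact dist_nonneg.trans h
  have hsub : vor S c ⊆ Metric.closedBall c R := by
    intro z hz
    obtain ⟨c', hc', h⟩ := hcov z
    exact (hz c' hc').trans h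
  have hclosed : IsClosed (vor S c) := by
    have : vor S c = ⋂ c' ∈ S, {z | dist z c ≤ dist z c'} := by
      ext z
      simp [vor]
    rw [this]
    refine isClosed_biInter fun c' _ => ?_
    exact isClosed_le (continuous_id.dist continuous_const) (continuous_id.dist continuous_const)
  refine ⟨(isCompact_closedBall c R).of_isClosed_subset hclosed hsub, ?_, ?_⟩
  · -- the interior
    have hf : ((S ∩ Metric.closedBall c 1) \ {c}).Finite := (hfin c 1).subset Set.diff_subset
    have ho : IsOpen ((S ∩ Metric.closedBall c 1) \ {c})ᶜ := hf.isClosed.isOpen_compl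
    have hmem : c ∈ ((S ∩ Metric.closedBall c 1) \ {c})ᶜ := by simp
    obtain ⟨δ, hδ, hball⟩ := Metric.isOpen_iff.1 ho c hmem
    have hfar : ∀ c' ∈ S, c' ≠ c → min δ 1 ≤ dist c' c := by
      intro c' hc' hne
      by_contra hlt
      push Not at hlt
      have h1 : c' ∈ Metric.ball c δ := lt_of_lt_of_le hlt (min_le_left _ _)
      have h2 := hball h1
      refine h2 ⟨⟨hc', ?_⟩, hne⟩
      exact (lt_of_lt_of_le hlt (min_le_right _ _)).le
    refine ⟨c, mem_interior.2 ⟨Metric.ball c (min δ 1 / 2), ?_, Metric.isOpen_ball,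
      Metric.mem_ball_self (by positivity)⟩⟩
    intro z hz c' hc'
    by_cases hne : c' = c
    · rw [hne]
    · have h1 := hfar c' hc' hne
      have h2 : dist z c < min δ 1 / 2 := hz
      have h3 := dist_triangle c' z c
      rw [dist_comm c' z] at h3
      linarith
  · -- finitely many half-spaces
    have hf : ((S ∩ Metric.closedBall c (2 * R + 1)) \ {c}).Finite :=
      (hfin c (2 * R + 1)).subset Set.diff_subset
    classical
    refine ⟨hf.toFinset.image (fun c' => (c, c')), ?_, ?_⟩
    · intro x hx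
      rw [Finset.mem_image] at hx
      obtain ⟨c', hc', rfl⟩ := hx
      rw [Set.Finite.mem_toFinset] at hc'
      exact fun h => hc'.2 h.symm
    · have hP : ∀ z, (∀ x ∈ hf.toFinset.image (fun c' => (c, c')), z ∈ HS x.1 x.2) ↔
          ∀ c' ∈ S, c' ≠ c → dist c' c ≤ 2 * R + 1 → dist z c ≤ dist z c' := by
        intro z
        constructor
        · intro h c' hc' hne hd
          exact h (c, c') (Finset.mem_image.2 ⟨c', (Set.Finite.mem_toFinset hf).2
            ⟨⟨hc', hd⟩, hne⟩, rfl⟩)
        · intro h x hx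
          rw [Finset.mem_image] at hx
          obtain ⟨c', hc', rfl⟩ := hx
          rw [Set.Finite.mem_toFinset] at hc'
          exact h c' hc'.1.1 hc'.2 hc'.1.2
      ext z
      rw [Set.mem_setOf_eq, hP]
      constructor
      · exact fun h c' hc' _ _ => h c' hc'
      · intro h
        have hd : dist z c ≤ R + 1 / 2 := by
          by_contra hlt
          push Not at hlt
          have hpos : 0 < dist z c := by linarith
          set t : ℝ := (R + 1 / 2) / dist z c with ht
          have ht0 : 0 ≤ t := by positivity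
          have ht1 : t ≤ 1 := by
            rw [ht, div_le_one hpos]
            exact hlt.le
          set z' := c + t • (z - c) with hz'
          have hz'd : dist z' c = R + 1 / 2 := by
            rw [hz', dist_eq_norm]
            have : c + t • (z - c) - c = t • (z - c) := by abel
            rw [this, norm_smul, ← dist_eq_norm, Real.norm_eq_abs, abs_of_nonneg ht0, ht]
            field_simp
          obtain ⟨c', hc', hc'd⟩ := hcov z'
          have hne : c' ≠ c := by
            rintro rfl
            linarith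
          have h3 : dist c' c ≤ 2 * R + 1 := by
            have := dist_triangle c' z' c
            rw [dist_comm c' z'] at this
            linarith
          have h4 := hs_seg z c c' t ht0 ht1 (h c' hc' hne h3)
          rw [← hz'] at h4
          linarith
        intro c' hc'
        by_cases hne : c' = c
        · rw [hne]
        by_cases h3 : dist c' c ≤ 2 * R + 1
        · exact h c' hc' hne h3
        · push Not at h3
          have := dist_triangle c' z c
          rw [dist_comm c' z] at this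
          linarith

theorem s_VTIL (hV : S_VPOLY) : S_VTIL := by
  intro ι _ S R hfin hcov
  refine ⟨?_, ?_, ?_, ?_, ?_⟩
  · have h1 : S.Countable := by
      have : S = ⋃ n : ℕ, S ∩ Metric.closedBall 0 n := by
        ext z
        simp only [Set.mem_iUnion, Set.mem_inter_iff, Metric.mem_closedBall]
        constructor
        · intro hz
          obtain ⟨n, hn⟩ := exists_nat_ge (dist z 0)
          exact ⟨n, hz, hn⟩
        · rintro ⟨n, hz, -⟩
          exact hz
      rw [this]
      exact Set.countable_iUnion fun n => (hfin 0 n).countable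
    have h2 : vtiles S = (fun c => vor S c) '' S := by
      ext P
      simp only [vtiles, Set.mem_setOf_eq, Set.mem_image]
      constructor
      · rintro ⟨c, hc, h⟩
        exact ⟨c, hc, h.symm⟩
      · rintro ⟨c, hc, h⟩
        exact ⟨c, hc, h.symm⟩
    rw [h2]
    exact h1.image _
  · intro z
    obtain ⟨c1, hc1, hd1⟩ := hcov z
    obtain ⟨c, hc, hmin⟩ := Set.exists_min_image (S ∩ Metric.closedBall z R) (fun c => dist z c)
      (hfin z R) ⟨c1, hc1, by rw [Metric.mem_closedBall, dist_comm]; exact hd1⟩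
    refine ⟨vor S c, ⟨c, hc.1, rfl⟩, fun c' hc' => ?_⟩
    by_cases h : dist z c' ≤ R
    · exact hmin c' ⟨hc', by rw [Metric.mem_closedBall, dist_comm]; exact h⟩
    · push Not at h
      have h2 : dist c z ≤ R := hc.2
      rw [dist_comm] at h2
      linarith
  · rintro P ⟨c, hc, rfl⟩ Q ⟨c', hc', rfl⟩ hne
    rw [Set.disjoint_left]
    intro z hz hz'
    have hcc : c ≠ c' := by
      rintro rfl
      exact hne rfl
    have h1 : dist z c' ≤ dist z c := (interior_subset hz') c hc
    have hu : 0 < ‖c' - c‖ := norm_pos_iff.2 (sub_ne_zero.2 hcc.symm)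
    obtain ⟨ε, hε, hball⟩ := Metric.isOpen_iff.1 (isOpen_interior (s := vor S c)) z hz
    set t : ℝ := ε / (2 * ‖c' - c‖) with ht
    have ht0 : 0 < t := by positivity
    have h2 : z + t • (c' - c) ∈ Metric.ball z ε := by
      rw [Metric.mem_ball, dist_eq_norm, add_sub_cancel_left, norm_smul, Real.norm_eq_abs,
        abs_of_pos ht0, ht]
      have : ε / (2 * ‖c' - c‖) * ‖c' - c‖ = ε / 2 := by field_simp
      rw [this]
      linarith
    have h3 := (interior_subset (hball h2)) c' hc'
    rw [hs_iff] at h3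
    have h4 : z + t • (c' - c) - c = (z - c) + t • (c' - c) := by abel
    rw [h4, inner_add_left, real_inner_smul_left, real_inner_self_eq_norm_sq] at h3
    have h5 : ‖c' - c‖ ^ 2 ≤ 2 * inner ℝ (z - c) (c' - c) := by
      have h6 : dist z c' ^ 2 = dist z c ^ 2 - 2 * inner ℝ (z - c) (c' - c) + ‖c' - c‖ ^ 2 := by
        rw [dist_eq_norm, dist_eq_norm, ← norm_sub_sq_real]
        congr 2
        abel
      have h7 : dist z c' ^ 2 ≤ dist z c ^ 2 := by gcongr
      linarith
    have h8 : 0 < t * ‖c' - c‖ ^ 2 := by positivity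
    linarith
  · rintro P ⟨c, hc, rfl⟩
    exact hV ι S R hfin hcov c hc
  · rintro P ⟨c, hc, rfl⟩ Q ⟨c', hc', rfl⟩ hne
    right
    have hcc : c ≠ c' := by
      rintro rfl
      exact hne rfl
    refine ⟨⟨c, c', hcc, fun z hz => hz c' hc', ?_⟩, ⟨c', c, hcc.symm, fun z hz => hz c hc, ?_⟩⟩
    · ext z
      constructor
      · rintro ⟨h1, h2⟩
        exact ⟨h1, le_antisymm (h1 c' hc') (h2 c hc)⟩
      · rintro ⟨h1, h2⟩
        exact ⟨h1, fun c'' hc'' => h2 ▸ h1 c'' hc''⟩
    · ext z
      constructor
      · rintro ⟨h1, h2⟩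
        exact ⟨h2, le_antisymm (h2 c hc) (h1 c' hc')⟩
      · rintro ⟨h1, h2⟩
        exact ⟨fun c'' hc'' => h2 ▸ h1 c'' hc'', h1⟩

theorem s_DST : S_DST := by
  intro r
  refine ⟨fun x y => ⟨fun a => ?_, ?_⟩, fun z w h1 h2 => ?_, fun z w => ?_, fun z w => ⟨fun a => rfl, rfl⟩⟩
  · simp [hor, mk]
  · simp [ver, mk]
  · ext i
    refine Fin.lastCases ?_ (fun a => ?_) i
    · exact h2
    · exact h1 a
  · rw [EuclideanSpace.dist_eq, Real.sq_sqrt (Finset.sum_nonneg fun _ _ => sq_nonneg _),
      Fin.sum_univ_castSucc]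
    simp only [Real.dist_eq, sq_abs]
    rfl

theorem s_W : S_W := by
  intro r _
  let f : ℤ → Fin r → ℝ := fun i a => if i % (r : ℤ) = ((a : ℕ) : ℤ) then eps i / 4 else 0
  refine ⟨⟨fun i a => ∑ j ∈ Finset.Ico 0 i, f j a - ∑ j ∈ Finset.Ico i 0, f j a, fun i a => ?_⟩⟩
  show _ = _ + f i a
  rcases le_or_gt 0 i with h | h
  · have e1 : Finset.Ico 0 (i + 1) = insert i (Finset.Ico 0 i) := by
      ext j
      simp only [Finset.mem_Ico, Finset.mem_insert]
      omega
    have e2 : Finset.Ico (i + 1) 0 = ∅ := Finset.Ico_eq_empty (by omega)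
    have e3 : Finset.Ico i 0 = ∅ := Finset.Ico_eq_empty (by omega)
    rw [e1, e2, e3, Finset.sum_insert (by simp)]
    simp
    ring
  · have e1 : Finset.Ico i 0 = insert i (Finset.Ico (i + 1) 0) := by
      ext j
      simp only [Finset.mem_Ico, Finset.mem_insert]
      omega
    have e2 : Finset.Ico 0 (i + 1) = ∅ := Finset.Ico_eq_empty (by omega)
    have e3 : Finset.Ico 0 i = ∅ := Finset.Ico_eq_empty (by omega)
    rw [e1, e2, e3, Finset.sum_insert (by simp)]
    simp

end Pool.Agent.L7h15.CE
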